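import Mathlib

/-!
# Extended M-bases: definitions and the construction

The construction generalises the one used for bounded sequences by the pool library.
-/
set_option autoImplicit false

open scoped ENNReal
open Filter Topology

universe u

namespace Pool.Agent.KS6_91.MB

variable (𝕜 : Type) [RCLike 𝕜]

/-- `E` has an extended M-basis: a family `x` with dense linear span and a total family `f` of
continuous functionals that is biorthogonal to it. -/
def HasExtMBasis (E : Type u) [NormedAddCommGroup E] [NormedSpace 𝕜 E] : Prop :=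
  ∃ (I : Type u) (x : I → E) (f : I → (E →L[𝕜] 𝕜)),
    (∀ i, f i (x i) = 1) ∧ (∀ i j, i ≠ j → f j (x i) = 0) ∧
    (Submodule.span 𝕜 (Set.range x)).topologicalClosure = ⊤ ∧
    (∀ v : E, (∀ i, f i v = 0) → v = 0)

/-- `X` injects into some `c₀(I)`: there is a family `t` of continuous functionals such that
`x ↦ (t i x)_i` is an injective bounded linear map from `X` to `c₀(I)`, the space of the scalar
families on `I` which tend to zero, with the supremum norm. -/
def InjectsIntoC0 (X : Type u) [NormedAddCommGroup X] [NormedSpace 𝕜 X] : Prop :=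
  ∃ (I : Type u) (t : I → (X →L[𝕜] 𝕜)) (C : ℝ), (∀ i x, ‖t i x‖ ≤ C * ‖x‖) ∧
    (∀ (x : X) (ε : ℝ), 0 < ε → {i | ε ≤ ‖t i x‖}.Finite) ∧ ∀ x, (∀ i, t i x = 0) → x = 0

/-- `X` is isomorphic to a closed subspace of a Banach space with an extended M-basis. -/
def EmbedsInExtMBasis (X : Type u) [NormedAddCommGroup X] [NormedSpace 𝕜 X] : Prop :=
  ∃ (E : Type u) (_ : NormedAddCommGroup E) (_ : NormedSpace 𝕜 E) (_ : CompleteSpace E),
    HasExtMBasis 𝕜 E ∧ ∃ G : Submodule 𝕜 E, IsClosed (G : Set E) ∧ Nonempty (G ≃L[𝕜] X)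

variable {𝕜}

/-! ### The space `l₁(Γ)` -/

/-- `l₁(Γ)` -/
abbrev L1 (𝕜 : Type) [RCLike 𝕜] (Γ : Type u) : Type u := lp (fun _ : Γ => 𝕜) 1

theorem summable_norm {Γ : Type u} (z : L1 𝕜 Γ) : Summable (fun g => ‖z g‖) := by
  have := (lp.memℓp z).summable (p := 1) (by simp)
  simpa using this

theorem norm_eq_tsum {Γ : Type u} (z : L1 𝕜 Γ) : ‖z‖ = ∑' g, ‖z g‖ := by
  have := lp.norm_eq_tsum_rpow (p := 1) (by simp) z
  simpa using this

theorem summable_wt {Γ : Type u} (w : Γ → 𝕜) (hw : ∀ g, ‖w g‖ ≤ 1) (z : L1 𝕜 Γ) :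
    Summable (fun g => w g * z g) := by
  refine Summable.of_norm_bounded (g := fun g => ‖z g‖) (summable_norm z) ?_
  intro g
  rw [norm_mul]
  exact mul_le_of_le_one_left (norm_nonneg _) (hw g)

/-- the functional `z ↦ ∑ w g * z g` on `l₁` -/
noncomputable def sumF {Γ : Type u} (w : Γ → 𝕜) (hw : ∀ g, ‖w g‖ ≤ 1) : L1 𝕜 Γ →L[𝕜] 𝕜 :=
  LinearMap.mkContinuous
    { toFun := fun z => ∑' g, w g * z g
      map_add' := by
        intro z z'
        rw [← (summable_wt w hw z).tsum_add (summable_wt w hw z')]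
        congr 1
        funext g
        simp only [lp.coeFn_add, Pi.add_apply]
        ring
      map_smul' := by
        intro c z
        simp only [RingHom.id_apply, smul_eq_mul]
        rw [← tsum_mul_left]
        congr 1
        funext g
        simp only [lp.coeFn_smul, Pi.smul_apply, smul_eq_mul]
        ring }
    1 (by
      intro z
      simp only [LinearMap.coe_mk, AddHom.coe_mk]
      rw [norm_eq_tsum, one_mul]
      refine tsum_of_norm_bounded (summable_norm z).hasSum ?_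
      intro g
      rw [norm_mul]
      exact mul_le_of_le_one_left (norm_nonneg _) (hw g))

theorem sumF_apply {Γ : Type u} (w : Γ → 𝕜) (hw : ∀ g, ‖w g‖ ≤ 1) (z : L1 𝕜 Γ) :
    sumF w hw z = ∑' g, w g * z g := rfl

open Classical in
/-- the vector with the only coordinate `c` at `g` -/
noncomputable def sg {Γ : Type u} (g : Γ) (c : 𝕜) : L1 𝕜 Γ := lp.single 1 g c

theorem sg_self {Γ : Type u} (g : Γ) (c : 𝕜) : (sg g c : L1 𝕜 Γ) g = c := by
  classical
  unfold sg
  rw [lp.single_apply_self]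

theorem sg_ne {Γ : Type u} {g g' : Γ} (h : g' ≠ g) (c : 𝕜) : (sg g c : L1 𝕜 Γ) g' = 0 := by
  classical
  unfold sg
  rw [lp.single_apply_ne _ _ _ h]

theorem norm_sg {Γ : Type u} (g : Γ) (c : 𝕜) : ‖(sg g c : L1 𝕜 Γ)‖ = ‖c‖ := by
  classical
  unfold sg
  rw [lp.norm_single (by simp)]

theorem smul_sg {Γ : Type u} (g : Γ) (c : 𝕜) : c • (sg g 1 : L1 𝕜 Γ) = sg g c := by
  classical
  unfold sg
  rw [← lp.single_smul, smul_eq_mul, mul_one]

theorem hasSum_sg {Γ : Type u} (z : L1 𝕜 Γ) : HasSum (fun g => (sg g (z g) : L1 𝕜 Γ)) z := by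
  classical
  unfold sg
  exact lp.hasSum_single (by simp) z

theorem sumF_single {Γ : Type u} (w : Γ → 𝕜) (hw : ∀ g, ‖w g‖ ≤ 1) (g : Γ) (c : 𝕜) :
    sumF w hw (sg g c) = w g * c := by
  rw [sumF_apply, tsum_eq_single g]
  · rw [sg_self]
  · intro g' hg'
    rw [sg_ne hg', mul_zero]

/-! ### The construction -/

section

variable {X : Type u} [NormedAddCommGroup X] [NormedSpace 𝕜 X] {J : Type u} {D : Set X}

/-- the index set -/
abbrev Gam (J : Type u) (D : Set X) : Type u := J ⊕ (D × ℕ)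

variable (t : J → (X →L[𝕜] 𝕜))
  (hfin : ∀ (x : X) (ε : ℝ), 0 < ε → {j | ε ≤ ‖t j x‖}.Finite)

/-- the finite set of the large coordinates -/
noncomputable def A (x : X) (n : ℕ) : Finset J :=
  (hfin x (1 / ((n : ℝ) + 1) ^ 2) (by positivity)).toFinset

theorem mem_A (x : X) (n : ℕ) (j : J) :
    j ∈ A t hfin x n ↔ 1 / ((n : ℝ) + 1) ^ 2 ≤ ‖t j x‖ := by
  unfold A
  rw [Set.Finite.mem_toFinset]
  rfl

open Classical in
/-- the weights of the functionals -/
noncomputable def wt (j : J) : Gam J D → 𝕜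
  | Sum.inl j' => if j' = j then 1 else 0
  | Sum.inr (y, n) => if j ∈ A t hfin y.1 n then 0 else -(((n : 𝕜) + 1) * t j y.1)

open Classical in
theorem wt_inl (j j' : J) : wt t hfin j (Sum.inl j' : Gam J D) = if j' = j then 1 else 0 := rfl

open Classical in
theorem wt_inr (j : J) (y : D) (n : ℕ) : wt t hfin j (Sum.inr (y, n)) =
    if j ∈ A t hfin y.1 n then 0 else -(((n : 𝕜) + 1) * t j y.1) := rfl

theorem norm_nat (n : ℕ) : ‖(n : 𝕜) + 1‖ = (n : ℝ) + 1 := by
  have h : ((n : 𝕜) + 1) = ((n + 1 : ℕ) : 𝕜) := by push_cast; ring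
  rw [h, RCLike.norm_natCast]
  push_cast
  ring

theorem nat_ne (n : ℕ) : (n : 𝕜) + 1 ≠ 0 := by
  rw [← norm_ne_zero_iff, norm_nat]
  positivity

theorem norm_wt (j : J) (g : Gam J D) : ‖wt t hfin j g‖ ≤ 1 := by
  classical
  rcases g with j' | ⟨y, n⟩
  · rw [wt_inl]
    split_ifs <;> simp
  · rw [wt_inr]
    split_ifs with h
    · simp
    · rw [mem_A, not_le] at h
      rw [norm_neg, norm_mul, norm_nat]
      have h1 : (0 : ℝ) < (n : ℝ) + 1 := by positivity
      have h2 : ((n : ℝ) + 1) * ‖t j y.1‖ ≤ ((n : ℝ) + 1) * (1 / ((n : ℝ) + 1) ^ 2) :=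
        mul_le_mul_of_nonneg_left h.le h1.le
      have h3 : ((n : ℝ) + 1) * (1 / ((n : ℝ) + 1) ^ 2) = 1 / ((n : ℝ) + 1) := by
        field_simp
      rw [h3] at h2
      have h4 : 1 / ((n : ℝ) + 1) ≤ 1 := by
        rw [div_le_one h1]
        have : (0 : ℝ) ≤ n := Nat.cast_nonneg n
        linarith
      exact h2.trans h4

/-- the vectors of the M-basis -/
noncomputable def vec : Gam J D → X × L1 𝕜 (Gam J D)
  | Sum.inl j => (0, sg (Sum.inl j) (1 : 𝕜))
  | Sum.inr (y, n) => (((n : 𝕜) + 1) • y.1, sg (Sum.inr (y, n)) (1 : 𝕜) -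
      ∑ j ∈ A t hfin y.1 n, (((n : 𝕜) + 1) * t j y.1) • sg (Sum.inl j) (1 : 𝕜))

/-- the functionals of the M-basis -/
noncomputable def fun' : Gam J D → ((X × L1 𝕜 (Gam J D)) →L[𝕜] 𝕜)
  | Sum.inl j => (t j).comp (ContinuousLinearMap.fst 𝕜 _ _)
      + (sumF (wt t hfin j) (norm_wt t hfin j)).comp (ContinuousLinearMap.snd 𝕜 _ _)
  | Sum.inr g => (lp.evalCLM 𝕜 (fun _ : Gam J D => 𝕜) 1 (Sum.inr g)).comp
      (ContinuousLinearMap.snd 𝕜 _ _)

theorem fun_inl (j : J) (v : X × L1 𝕜 (Gam J D)) :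
    fun' t hfin (Sum.inl j) v = t j v.1 + sumF (wt t hfin j) (norm_wt t hfin j) v.2 := rfl

theorem fun_inr (g : D × ℕ) (v : X × L1 𝕜 (Gam J D)) :
    fun' t hfin (Sum.inr g) v = v.2 (Sum.inr g) := rfl

open Classical in
theorem biorth (a b : Gam J D) : fun' t hfin a (vec t hfin b) = if a = b then 1 else 0 := by
  rcases a with j | g
  · rcases b with j' | ⟨y, n⟩
    · rw [fun_inl]
      simp only [vec, map_zero, zero_add]
      rw [sumF_single, mul_one, wt_inl]
      by_cases h : j' = j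
      · rw [if_pos h, if_pos (by rw [h])]
      · rw [if_neg h, if_neg (fun h' => h (Sum.inl.inj h').symm)]
    · rw [fun_inl, if_neg (by simp)]
      simp only [vec, map_sub, map_sum, map_smul, smul_eq_mul]
      simp only [sumF_single, mul_one]
      have h2 : ∑ x ∈ A t hfin y.1 n, ((n : 𝕜) + 1) * t x y.1 *
          wt t hfin j (Sum.inl x : Gam J D) =
          if j ∈ A t hfin y.1 n then ((n : 𝕜) + 1) * t j y.1 else 0 := by
        simp only [wt_inl, mul_ite, mul_one, mul_zero]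
        rw [Finset.sum_ite_eq' (A t hfin y.1 n) j (fun x => ((n : 𝕜) + 1) * t x y.1)]
      rw [h2, wt_inr]
      split_ifs <;> ring
  · rw [fun_inr]
    rcases b with j' | ⟨y, n⟩
    · simp only [vec]
      rw [sg_ne (by simp), if_neg (by simp)]
    · simp only [vec, lp.coeFn_sub, lp.coeFn_sum, lp.coeFn_smul, Pi.sub_apply, Finset.sum_apply,
        Pi.smul_apply, smul_eq_mul]
      have h1 : ∑ c ∈ A t hfin y.1 n, ((n : 𝕜) + 1) * t c y.1 *
          (sg (Sum.inl c : Gam J D) (1 : 𝕜) : L1 𝕜 (Gam J D)) (Sum.inr g) = 0 := by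
        refine Finset.sum_eq_zero fun c _ => ?_
        rw [sg_ne (by simp), mul_zero]
      rw [h1, sub_zero]
      by_cases h : (y, n) = g
      · subst h
        rw [sg_self, if_pos rfl]
      · rw [sg_ne (fun h' => h (Sum.inr.inj h').symm),
          if_neg (fun h' => h (Sum.inr.inj h').symm)]

theorem total (hinj : ∀ x : X, (Summable fun j => ‖t j x‖) → x = 0)
    (v : X × L1 𝕜 (Gam J D)) (hv : ∀ a, fun' t hfin a v = 0) : v = 0 := by
  classical
  obtain ⟨x, w⟩ := v
  have h2 : ∀ g, w (Sum.inr g) = 0 := fun g => hv (Sum.inr g)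
  have h3 : ∀ j, w (Sum.inl j) = - t j x := by
    intro j
    have h4 := hv (Sum.inl j)
    rw [fun_inl, sumF_apply, tsum_eq_single (Sum.inl j)] at h4
    · have h5 : wt t hfin j (Sum.inl j : Gam J D) = 1 := by rw [wt_inl, if_pos rfl]
      rw [h5, one_mul] at h4
      exact eq_neg_of_add_eq_zero_right h4
    · rintro (j' | g) hne
      · have h5 : wt t hfin j (Sum.inl j' : Gam J D) = 0 := by
          have : j' ≠ j := fun h => hne (by rw [h])
          rw [wt_inl, if_neg this]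
        rw [h5, zero_mul]
      · show wt t hfin j (Sum.inr g) * w (Sum.inr g) = 0
        rw [h2, mul_zero]
  have hx : x = 0 := by
    apply hinj
    have h4 : Summable fun j : J => ‖w (Sum.inl j)‖ :=
      (summable_norm w).comp_injective (i := fun j : J => (Sum.inl j : Gam J D))
        (fun a b h => by simpa using h)
    refine h4.congr fun j => ?_
    rw [h3, norm_neg]
  subst hx
  refine Prod.ext rfl ?_
  apply lp.ext
  funext a
  rcases a with j | g
  · show w (Sum.inl j) = 0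
    rw [h3, map_zero, neg_zero]
  · exact h2 g

/-- the closed linear span of the vectors -/
noncomputable def S : Submodule 𝕜 (X × L1 𝕜 (Gam J D)) :=
  (Submodule.span 𝕜 (Set.range (vec t hfin (D := D)))).topologicalClosure

theorem vec_mem (a : Gam J D) : vec t hfin a ∈ S t hfin (D := D) :=
  Submodule.le_topologicalClosure _ (Submodule.subset_span ⟨a, rfl⟩)

theorem S_closed : IsClosed (S t hfin (D := D) : Set (X × L1 𝕜 (Gam J D))) :=
  Submodule.isClosed_topologicalClosure _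

theorem fst_mem' (y : D) : ((y.1, 0) : X × L1 𝕜 (Gam J D)) ∈ S t hfin (D := D) := by
  classical
  let v : ℕ → X × L1 𝕜 (Gam J D) := fun n =>
    (((n : 𝕜) + 1)⁻¹) • vec t hfin (Sum.inr (y, n))
      + ∑ j ∈ A t hfin y.1 n, (t j y.1) • vec t hfin (Sum.inl j)
  have hv : ∀ n, v n ∈ S t hfin (D := D) := by
    intro n
    refine (S t hfin).add_mem ((S t hfin).smul_mem _ (vec_mem t hfin _))
      ((S t hfin).sum_mem ?_)
    intro i _
    exact (S t hfin).smul_mem _ (vec_mem t hfin _)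
  have hve : ∀ n, v n = (y.1, (((n : 𝕜) + 1)⁻¹) • sg (Sum.inr (y, n) : Gam J D) (1 : 𝕜)) := by
    intro n
    apply Prod.ext
    · simp only [v, vec, Prod.fst_add, Prod.smul_fst, Prod.fst_sum, smul_zero,
        Finset.sum_const_zero, add_zero]
      rw [smul_smul, inv_mul_cancel₀ (nat_ne n), one_smul]
    · simp only [v, vec, Prod.snd_add, Prod.smul_snd, Prod.snd_sum]
      rw [smul_sub, Finset.smul_sum, sub_add]
      have : ∑ x ∈ A t hfin y.1 n, ((n : 𝕜) + 1)⁻¹ • (((n : 𝕜) + 1) * t x y.1) •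
          (sg (Sum.inl x : Gam J D) (1 : 𝕜) : L1 𝕜 (Gam J D)) =
          ∑ x ∈ A t hfin y.1 n, t x y.1 •
          (sg (Sum.inl x : Gam J D) (1 : 𝕜) : L1 𝕜 (Gam J D)) := by
        refine Finset.sum_congr rfl fun j _ => ?_
        rw [smul_smul, ← mul_assoc, inv_mul_cancel₀ (nat_ne n), one_mul]
      rw [this, sub_self, sub_zero]
  have hlim : Tendsto v atTop (𝓝 ((y.1, 0) : X × L1 𝕜 (Gam J D))) := by
    rw [tendsto_iff_norm_sub_tendsto_zero]
    have hnorm : ∀ n, ‖v n - ((y.1, 0) : X × L1 𝕜 (Gam J D))‖ = 1 / ((n : ℝ) + 1) := by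
      intro n
      rw [hve, Prod.mk_sub_mk, sub_self, sub_zero, Prod.norm_mk, norm_zero, norm_smul, norm_inv,
        norm_nat, norm_sg, norm_one, mul_one, max_eq_right (by positivity),
        one_div]
    simp_rw [hnorm]
    exact tendsto_one_div_add_atTop_nhds_zero_nat
  exact (S_closed t hfin).mem_of_tendsto hlim (Eventually.of_forall hv)

theorem fst_mem (hD : Dense D) (y : X) :
    ((y, 0) : X × L1 𝕜 (Gam J D)) ∈ S t hfin (D := D) := by
  have hcont : Continuous fun y : X => ((y, 0) : X × L1 𝕜 (Gam J D)) :=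
    continuous_id.prodMk continuous_const
  have hcl : IsClosed {y : X | ((y, 0) : X × L1 𝕜 (Gam J D)) ∈ S t hfin (D := D)} :=
    (S_closed t hfin (D := D)).preimage hcont
  have hsub : D ⊆ {y : X | ((y, 0) : X × L1 𝕜 (Gam J D)) ∈ S t hfin (D := D)} :=
    fun y hy => fst_mem' t hfin ⟨y, hy⟩
  have := closure_minimal hsub hcl (hD y)
  exact this

theorem single_mem (hD : Dense D) (g : Gam J D) (c : 𝕜) :
    ((0, sg g c) : X × L1 𝕜 (Gam J D)) ∈ S t hfin (D := D) := by
  classical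
  have key : ((0, sg g (1 : 𝕜)) : X × L1 𝕜 (Gam J D)) ∈ S t hfin (D := D) := by
    rcases g with j | ⟨y, n⟩
    · exact vec_mem t hfin (Sum.inl j)
    · have h1 := (S t hfin (D := D)).sub_mem (vec_mem t hfin (Sum.inr (y, n)))
        (fst_mem t hfin hD (((n : 𝕜) + 1) • y.1))
      have h2 : ∑ j ∈ A t hfin y.1 n, (((n : 𝕜) + 1) * t j y.1) •
          vec t hfin (Sum.inl j : Gam J D) ∈
          S t hfin (D := D) := (S t hfin).sum_mem fun j _ =>
            (S t hfin).smul_mem _ (vec_mem t hfin _)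
      have h3 := (S t hfin (D := D)).add_mem h1 h2
      have h4 : vec t hfin (Sum.inr (y, n) : Gam J D) -
          ((((n : 𝕜) + 1) • y.1, 0) : X × L1 𝕜 (Gam J D)) +
          ∑ j ∈ A t hfin y.1 n, (((n : 𝕜) + 1) * t j y.1) • vec t hfin (Sum.inl j) =
          (0, sg (Sum.inr (y, n)) (1 : 𝕜)) := by
        apply Prod.ext
        · simp only [vec, Prod.fst_add, Prod.fst_sub, Prod.smul_fst, Prod.fst_sum, smul_zero,
            Finset.sum_const_zero, add_zero, sub_self]
        · simp only [vec, Prod.snd_add, Prod.snd_sub, Prod.smul_snd, Prod.snd_sum, sub_zero,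
            sub_add_cancel]
      rwa [h4] at h3
  have h3 := (S t hfin (D := D)).smul_mem c key
  have h4 : c • ((0, sg g (1 : 𝕜)) : X × L1 𝕜 (Gam J D)) = (0, sg g c) := by
    rw [Prod.smul_mk, smul_zero, smul_sg]
  rwa [h4] at h3

theorem snd_mem (hD : Dense D) (z : L1 𝕜 (Gam J D)) :
    ((0, z) : X × L1 𝕜 (Gam J D)) ∈ S t hfin (D := D) := by
  classical
  have h1 : HasSum (fun g => (sg g (z g) : L1 𝕜 (Gam J D))) z := hasSum_sg z
  have h2 : HasSum (fun g => ((0, sg g (z g)) : X × L1 𝕜 (Gam J D))) (0, z) := by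
    have := h1.mapL (ContinuousLinearMap.inr 𝕜 X (L1 𝕜 (Gam J D)))
    simpa using this
  refine (S_closed t hfin).mem_of_tendsto h2 (Eventually.of_forall ?_)
  intro s
  refine (S t hfin).sum_mem ?_
  intro g _
  exact single_mem t hfin hD g _

theorem span_top (hD : Dense D) :
    (Submodule.span 𝕜 (Set.range (vec t hfin (D := D)))).topologicalClosure = ⊤ := by
  rw [eq_top_iff]
  rintro ⟨u, z⟩ _
  have h := (S t hfin (D := D)).add_mem (fst_mem t hfin hD u) (snd_mem t hfin hD z)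
  have h2 : ((u, 0) : X × L1 𝕜 (Gam J D)) + (0, z) = (u, z) := by simp
  rw [h2] at h
  exact h

include hfin in
theorem basis_of (hD : Dense D) (hinj : ∀ x : X, (Summable fun j => ‖t j x‖) → x = 0) :
    HasExtMBasis 𝕜 (X × L1 𝕜 (Gam J D)) := by
  classical
  refine ⟨Gam J D, vec t hfin, fun' t hfin, ?_, ?_, span_top t hfin hD, total t hfin hinj⟩
  · intro i
    rw [biorth, if_pos rfl]
  · intro i j hij
    rw [biorth, if_neg (Ne.symm hij)]

end

/-! ### The functionals `t i / (m + 1)` -/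

section

variable {X : Type u} [NormedAddCommGroup X] [NormedSpace 𝕜 X] {I K : Type u}

/-- the functionals `t i / (m + 1)`, and zero for the indices from `K` -/
noncomputable def fn (t : I → (X →L[𝕜] 𝕜)) : (I × ℕ) ⊕ K → (X →L[𝕜] 𝕜)
  | Sum.inl j => (((j.2 : 𝕜) + 1)⁻¹) • t j.1
  | Sum.inr _ => 0

theorem norm_fn (t : I → (X →L[𝕜] 𝕜)) (i : I) (m : ℕ) (x : X) :
    ‖fn t (Sum.inl (i, m) : (I × ℕ) ⊕ K) x‖ = ‖t i x‖ / ((m : ℝ) + 1) := by
  show ‖((m : 𝕜) + 1)⁻¹ * t i x‖ = _
  rw [norm_mul, norm_inv, norm_nat]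
  ring

theorem fn_fin (t : I → (X →L[𝕜] 𝕜)) (C : ℝ) (hC : ∀ i x, ‖t i x‖ ≤ C * ‖x‖)
    (ht : ∀ (x : X) (ε : ℝ), 0 < ε → {i | ε ≤ ‖t i x‖}.Finite) (x : X) (ε : ℝ) (hε : 0 < ε) :
    {j : (I × ℕ) ⊕ K | ε ≤ ‖fn t j x‖}.Finite := by
  obtain ⟨N, hN⟩ := exists_nat_gt (C * ‖x‖ / ε)
  refine (((ht x ε hε).prod (Set.finite_lt_nat N)).image Sum.inl).subset ?_
  rintro (⟨i, m⟩ | k) hj
  · have hj' : ε ≤ ‖fn t (Sum.inl (i, m) : (I × ℕ) ⊕ K) x‖ := hj
    rw [norm_fn] at hj'
    have hm : (0 : ℝ) < (m : ℝ) + 1 := by positivity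
    rw [le_div_iff₀ hm] at hj'
    have h1 : ‖t i x‖ ≤ C * ‖x‖ := hC i x
    refine ⟨(i, m), ⟨?_, ?_⟩, rfl⟩
    · show ε ≤ ‖t i x‖
      nlinarith [(Nat.cast_nonneg m : (0 : ℝ) ≤ (m : ℝ))]
    · show m < N
      have h2 : ((m : ℝ) + 1) * ε ≤ C * ‖x‖ := by linarith
      have h3 : (m : ℝ) + 1 ≤ C * ‖x‖ / ε := by rwa [le_div_iff₀ hε]
      have h4 : (m : ℝ) < N := by linarith
      exact_mod_cast h4
  · exfalso
    have hj' : ε ≤ ‖(0 : X →L[𝕜] 𝕜) x‖ := hj
    simp at hj'
    linarith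

theorem fn_total (t : I → (X →L[𝕜] 𝕜)) (hinj : ∀ x : X, (∀ i, t i x = 0) → x = 0) (x : X)
    (hs : Summable fun j : (I × ℕ) ⊕ K => ‖fn t j x‖) : x = 0 := by
  apply hinj
  intro i
  by_contra hne
  have h4 : Summable fun m : ℕ => ‖fn t (Sum.inl (i, m) : (I × ℕ) ⊕ K) x‖ :=
    hs.comp_injective (i := fun m : ℕ => (Sum.inl (i, m) : (I × ℕ) ⊕ K))
      (fun a b h => by simpa using h)
  have h5 : (fun m : ℕ => ‖fn t (Sum.inl (i, m) : (I × ℕ) ⊕ K) x‖) =
      fun m : ℕ => ‖t i x‖ * (1 / ((m : ℝ) + 1)) := by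
    funext m
    rw [norm_fn]
    ring
  rw [h5, summable_mul_left_iff (norm_ne_zero_iff.2 hne)] at h4
  have h6 : Summable fun m : ℕ => 1 / ((m : ℝ)) := by
    rw [← summable_nat_add_iff 1]
    simpa using h4
  exact Real.not_summable_one_div_natCast h6

end

/-! ### Reindexing -/

theorem memL1_comp {Γ Δ : Type u} (e : Δ ≃ Γ) (z : L1 𝕜 Γ) : Memℓp (fun d => z (e d)) 1 := by
  apply memℓp_gen
  simp only [ENNReal.toReal_one, Real.rpow_one]
  exact (summable_norm z).comp_injective e.injective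

/-- a bijection of the index sets gives an isomorphism of the `l₁` spaces -/
noncomputable def reindex {Γ Δ : Type u} (e : Δ ≃ Γ) : L1 𝕜 Γ ≃ₗᵢ[𝕜] L1 𝕜 Δ where
  toFun z := ⟨fun d => z (e d), memL1_comp e z⟩
  invFun z := ⟨fun d => z (e.symm d), memL1_comp e.symm z⟩
  left_inv z := by
    apply lp.ext
    funext g
    show z (e (e.symm g)) = z g
    rw [e.apply_symm_apply]
  right_inv z := by
    apply lp.ext
    funext g
    show z (e.symm (e g)) = z g
    rw [e.symm_apply_apply]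
  map_add' z w := rfl
  map_smul' c z := rfl
  norm_map' z := by
    rw [norm_eq_tsum, norm_eq_tsum]
    exact e.tsum_eq fun g => ‖z g‖

theorem transport {E F : Type u} [NormedAddCommGroup E] [NormedSpace 𝕜 E] [NormedAddCommGroup F]
    [NormedSpace 𝕜 F] (Φ : E ≃L[𝕜] F) (h : HasExtMBasis 𝕜 E) : HasExtMBasis 𝕜 F := by
  obtain ⟨I, x, f, h1, h2, h3, h4⟩ := h
  refine ⟨I, fun i => Φ (x i), fun i => (f i).comp (Φ.symm : F →L[𝕜] E), ?_, ?_, ?_, ?_⟩
  · intro i
    simpa using h1 i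
  · intro i j hij
    simpa using h2 i j hij
  · have hd : Dense (Submodule.span 𝕜 (Set.range x) : Set E) := by
      rw [Submodule.dense_iff_topologicalClosure_eq_top]
      exact h3
    have hd' := Φ.surjective.denseRange.dense_image Φ.continuous hd
    rw [← Submodule.dense_iff_topologicalClosure_eq_top]
    refine hd'.mono ?_
    rintro _ ⟨v, hv, rfl⟩
    have : Submodule.span 𝕜 (Set.range fun i => Φ (x i)) =
        (Submodule.span 𝕜 (Set.range x)).map (Φ : E →L[𝕜] F).toLinearMap := by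
      rw [Submodule.map_span, ← Set.range_comp]
      rfl
    rw [this]
    exact ⟨v, hv, rfl⟩
  · intro v hv
    have := h4 (Φ.symm v) hv
    rw [← Φ.apply_symm_apply v, this, map_zero]

/-- the known converse: a space which maps injectively to a space with an extended M-basis
injects into some `c₀(I)` -/
theorem injects_of {X E : Type u} [NormedAddCommGroup X] [NormedSpace 𝕜 X]
    [NormedAddCommGroup E] [NormedSpace 𝕜 E] (hE : HasExtMBasis 𝕜 E) (J : X →L[𝕜] E)
    (hJ : Function.Injective J) : InjectsIntoC0 𝕜 X := by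
  classical
  obtain ⟨I, x, f, h1, h2, h3, h4⟩ := hE
  have hpos : ∀ i, 0 < ‖f i‖ + 1 := fun i => by positivity
  have hb : ∀ (i : I) (v : E), ‖f i v‖ / (‖f i‖ + 1) ≤ ‖v‖ := by
    intro i v
    rw [div_le_iff₀ (hpos i)]
    have := (f i).le_opNorm v
    nlinarith [norm_nonneg v]
  have hn : ∀ (i : I) (v : E), ‖(((‖f i‖ + 1 : ℝ) : 𝕜)⁻¹) * f i v‖ = ‖f i v‖ / (‖f i‖ + 1) := by
    intro i v
    rw [norm_mul, norm_inv, RCLike.norm_ofReal, abs_of_pos (hpos i)]
    ring
  have hT : ∀ i v, ((((‖f i‖ + 1 : ℝ) : 𝕜)⁻¹) • (f i).comp J) v =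
      (((‖f i‖ + 1 : ℝ) : 𝕜)⁻¹) * f i (J v) := fun i v => rfl
  refine ⟨I, fun i => (((‖f i‖ + 1 : ℝ) : 𝕜)⁻¹) • (f i).comp J, ‖J‖, ?_, ?_, ?_⟩
  · intro i v
    rw [hT, hn]
    exact (hb i (J v)).trans (J.le_opNorm v)
  · intro a ε hε
    have hmem : J a ∈ (Submodule.span 𝕜 (Set.range x)).topologicalClosure := by
      rw [h3]; trivial
    obtain ⟨u, hu, hdist⟩ := Metric.mem_closure_iff.1 hmem ε hε
    have hfu : {i | f i u ≠ 0}.Finite := by
      clear hdist
      induction hu using Submodule.span_induction with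
      | mem w hw =>
        obtain ⟨j, rfl⟩ := hw
        refine (Set.finite_singleton j).subset ?_
        intro i hi
        by_contra hne
        exact hi (h2 j i (fun h => hne h.symm))
      | zero => simp
      | add v w _ _ hv hw =>
        refine (hv.union hw).subset ?_
        intro i hi
        by_contra hne
        rw [Set.mem_union, not_or] at hne
        have e1 : f i v = 0 := not_not.1 hne.1
        have e2 : f i w = 0 := not_not.1 hne.2
        exact hi (by rw [map_add, e1, e2, add_zero])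
      | smul c v _ hv =>
        refine hv.subset ?_
        intro i hi hne
        exact hi (by rw [map_smul, hne, smul_zero])
    refine hfu.subset ?_
    intro i hi hzero
    have h5 : ε ≤ ‖(((‖f i‖ + 1 : ℝ) : 𝕜)⁻¹) * f i (J a)‖ := hi
    rw [hn] at h5
    have h6 : f i (J a) = f i (J a - u) := by rw [map_sub, hzero, sub_zero]
    rw [h6] at h5
    have h7 := hb i (J a - u)
    rw [dist_eq_norm] at hdist
    linarith
  · intro a ha
    have h5 : J a = 0 := by
      apply h4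
      intro i
      have h6 := ha i
      rw [hT] at h6
      rcases mul_eq_zero.1 h6 with h7 | h7
      · exfalso
        rw [inv_eq_zero] at h7
        have := (hpos i).ne'
        exact this (by exact_mod_cast h7)
      · exact h7
    exact hJ (by rw [h5, map_zero])

/-! ### The construction with a prescribed index set -/

open Cardinal in
theorem hasExtMBasis_of {X : Type u} [NormedAddCommGroup X] [NormedSpace 𝕜 X]
    (h : InjectsIntoC0 𝕜 X) (D : Set X) (hD : Dense D) (Γ : Type u) [Infinite Γ]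
    (hΓ : #D ≤ #Γ) : HasExtMBasis 𝕜 (X × L1 𝕜 Γ) := by
  classical
  obtain ⟨I, t0, C, hC0, hfin, hinj0⟩ := h
  have hinf : ℵ₀ ≤ #Γ := Cardinal.infinite_iff.1 inferInstance
  have hmul : #Γ * #Γ = #Γ := Cardinal.mul_eq_self hinf
  have hmul' : ∀ c : Cardinal.{u}, c ≤ #Γ → c * ℵ₀ ≤ #Γ := fun c hc => by
    calc c * ℵ₀ ≤ #Γ * #Γ := mul_le_mul' hc hinf
      _ = #Γ := hmul
  let P : Set I := {i | t0 i ≠ 0}
  let t : P → (X →L[𝕜] 𝕜) := fun i => t0 i.1
  have hC : ∀ i x, ‖t i x‖ ≤ C * ‖x‖ := fun i x => hC0 i.1 x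
  have hft : ∀ (x : X) (ε : ℝ), 0 < ε → {i | ε ≤ ‖t i x‖}.Finite := by
    intro x ε hε
    have h := (hfin x ε hε).preimage (f := (Subtype.val : P → I)) Subtype.val_injective.injOn
    exact h
  have hinj : ∀ x : X, (∀ i, t i x = 0) → x = 0 := by
    intro x hx
    apply hinj0
    intro i
    by_cases hi : t0 i = 0
    · rw [hi]; rfl
    · exact hx ⟨i, hi⟩
  -- the cardinality of `P`
  have hP : #P ≤ #Γ := by
    have h1 : P ⊆ ⋃ y : D, {i | t0 i y.1 ≠ 0} := by
      intro i hi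
      by_contra hne
      apply hi
      have h2 : ∀ y : D, t0 i y.1 = 0 := by
        intro y
        by_contra h3
        exact hne (Set.mem_iUnion.2 ⟨y, h3⟩)
      apply ContinuousLinearMap.ext
      intro x
      have h4 : IsClosed {x : X | t0 i x = 0} := isClosed_eq (t0 i).continuous continuous_const
      exact closure_minimal (fun y hy => h2 ⟨y, hy⟩) h4 (hD x)
    have h2 : ∀ y : D, #{i | t0 i y.1 ≠ 0} ≤ ℵ₀ := by
      intro y
      have h3 : {i | t0 i y.1 ≠ 0} ⊆ ⋃ n : ℕ, {i | 1 / ((n : ℝ) + 1) ≤ ‖t0 i y.1‖} := by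
        intro i hi
        have h4 : 0 < ‖t0 i y.1‖ := norm_pos_iff.2 hi
        obtain ⟨n, hn⟩ := exists_nat_one_div_lt h4
        exact Set.mem_iUnion.2 ⟨n, hn.le⟩
      have h5 : (⋃ n : ℕ, {i | 1 / ((n : ℝ) + 1) ≤ ‖t0 i y.1‖}).Countable :=
        Set.countable_iUnion fun n => (hfin y.1 _ (by positivity)).countable
      exact Cardinal.le_aleph0_iff_set_countable.2 (h5.mono h3)
    calc #P ≤ #(⋃ y : D, {i | t0 i y.1 ≠ 0}) := Cardinal.mk_le_mk_of_subset h1
      _ ≤ Cardinal.sum fun y : D => #{i | t0 i y.1 ≠ 0} := Cardinal.mk_iUnion_le_sum_mk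
      _ ≤ Cardinal.sum fun _ : D => (ℵ₀ : Cardinal.{u}) := Cardinal.sum_le_sum _ _ h2
      _ = #D * ℵ₀ := by rw [Cardinal.sum_const']
      _ ≤ #Γ := hmul' _ hΓ
  have hcard : #(Gam ((P × ℕ) ⊕ Γ) D) = #Γ := by
    have e1 : #(Gam ((P × ℕ) ⊕ Γ) D) = #P * ℵ₀ + #Γ + #D * ℵ₀ := by
      simp [Cardinal.mk_sum, Cardinal.mk_prod]
    rw [e1]
    apply le_antisymm
    · calc #P * ℵ₀ + #Γ + #D * ℵ₀ ≤ #Γ + #Γ + #Γ :=
            add_le_add (add_le_add (hmul' _ hP) le_rfl) (hmul' _ hΓ)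
        _ = #Γ := by rw [Cardinal.add_eq_self hinf, Cardinal.add_eq_self hinf]
    · calc #Γ ≤ #P * ℵ₀ + #Γ := self_le_add_left _ _
        _ ≤ _ := self_le_add_right _ _
  obtain ⟨e⟩ := Cardinal.eq.1 hcard
  have hb : HasExtMBasis 𝕜 (X × L1 𝕜 (Gam ((P × ℕ) ⊕ Γ) D)) :=
    basis_of (fn t) (fn_fin t C hC hft) hD (fn_total t hinj)
  exact transport ((ContinuousLinearEquiv.refl 𝕜 X).prodCongr
    (reindex (𝕜 := 𝕜) e.symm).toContinuousLinearEquiv) hb

/-- a space with a countable total family of functionals injects into `c₀` -/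
theorem injects_of_countable {X : Type u} [NormedAddCommGroup X] [NormedSpace 𝕜 X]
    (f : ℕ → (X →L[𝕜] 𝕜)) (hf : ∀ x, (∀ n, f n x = 0) → x = 0) : InjectsIntoC0 𝕜 X := by
  have hpos : ∀ n : ℕ, 0 < ((n : ℝ) + 1) * (‖f n‖ + 1) := fun n => by positivity
  have hn : ∀ (n : ℕ) (v : X), ‖(((((n : ℝ) + 1) * (‖f n‖ + 1) : ℝ) : 𝕜)⁻¹) * f n v‖ =
      ‖f n v‖ / (((n : ℝ) + 1) * (‖f n‖ + 1)) := by
    intro n v
    rw [norm_mul, norm_inv, RCLike.norm_ofReal, abs_of_pos (hpos n)]
    ring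
  have hb : ∀ (n : ℕ) (v : X), ‖f n v‖ / (((n : ℝ) + 1) * (‖f n‖ + 1)) ≤
      ‖v‖ / ((n : ℝ) + 1) := by
    intro n v
    have h1 : (0 : ℝ) < (n : ℝ) + 1 := by positivity
    have h2 : (0 : ℝ) < ‖f n‖ + 1 := by positivity
    rw [div_le_div_iff₀ (hpos n) h1]
    have h3 := (f n).le_opNorm v
    have h4 : ‖f n v‖ ≤ ‖v‖ * (‖f n‖ + 1) := by nlinarith [norm_nonneg v]
    calc ‖f n v‖ * ((n : ℝ) + 1) ≤ ‖v‖ * (‖f n‖ + 1) * ((n : ℝ) + 1) := by gcongr
      _ = ‖v‖ * (((n : ℝ) + 1) * (‖f n‖ + 1)) := by ring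
  have hb' : ∀ (n : ℕ) (v : X), ‖v‖ / ((n : ℝ) + 1) ≤ ‖v‖ := fun n v =>
    div_le_self (norm_nonneg v) (by
      have : (0 : ℝ) ≤ n := Nat.cast_nonneg n
      linarith)
  have hT : ∀ (i : ULift.{u} ℕ) (v : X),
      ((((((i.down : ℝ) + 1) * (‖f i.down‖ + 1) : ℝ) : 𝕜)⁻¹) • f i.down) v =
      (((((i.down : ℝ) + 1) * (‖f i.down‖ + 1) : ℝ) : 𝕜)⁻¹) * f i.down v := fun i v => rfl
  refine ⟨ULift.{u} ℕ, fun i =>
    (((((i.down : ℝ) + 1) * (‖f i.down‖ + 1) : ℝ) : 𝕜)⁻¹) • f i.down, 1, ?_, ?_, ?_⟩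
  · intro i x
    rw [hT, hn, one_mul]
    exact (hb i.down x).trans (hb' i.down x)
  · intro x ε hε
    obtain ⟨N, hN⟩ := exists_nat_gt (‖x‖ / ε)
    have h1 : {i : ULift.{u} ℕ | i.down < N}.Finite :=
      (Set.finite_lt_nat N).preimage (ULift.down_injective.injOn)
    refine h1.subset ?_
    intro i hi
    have h2 : ε ≤ ‖(((((i.down : ℝ) + 1) * (‖f i.down‖ + 1) : ℝ) : 𝕜)⁻¹) * f i.down x‖ := hi
    rw [hn] at h2
    have h3 := h2.trans (hb i.down x)
    have h4 : (0 : ℝ) < (i.down : ℝ) + 1 := by positivity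
    rw [le_div_iff₀ h4] at h3
    have h5 : (i.down : ℝ) + 1 ≤ ‖x‖ / ε := by
      rw [le_div_iff₀ hε]
      linarith
    have h6 : (i.down : ℝ) < N := by linarith
    exact_mod_cast h6
  · intro a ha
    apply hf
    intro n
    have h6 := ha ⟨n⟩
    rw [hT] at h6
    rcases mul_eq_zero.1 h6 with h7 | h7
    · exfalso
      rw [inv_eq_zero] at h7
      have := (hpos n).ne'
      exact this (by exact_mod_cast h7)
    · exact h7

theorem embeds_of {X Y : Type u} [NormedAddCommGroup X] [NormedSpace 𝕜 X] [CompleteSpace X]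
    [NormedAddCommGroup Y] [NormedSpace 𝕜 Y] [CompleteSpace Y]
    (h : HasExtMBasis 𝕜 (X × Y)) : EmbedsInExtMBasis 𝕜 X := by
  refine ⟨X × Y, inferInstance, inferInstance, inferInstance, h,
    LinearMap.range (LinearMap.inl 𝕜 X Y), ?_, ?_⟩
  · have : (LinearMap.range (LinearMap.inl 𝕜 X Y) : Set (X × Y)) = {v | v.2 = 0} := by
      ext v
      constructor
      · rintro ⟨u, rfl⟩
        rfl
      · intro hv
        exact ⟨v.1, Prod.ext rfl hv.symm⟩
    rw [this]
    exact isClosed_eq continuous_snd continuous_const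
  · refine ⟨ContinuousLinearEquiv.symm
      { toFun := fun u => ⟨(u, 0), ⟨u, rfl⟩⟩
        invFun := fun v => v.1.1
        left_inv := fun u => rfl
        right_inv := by
          rintro ⟨v, ⟨u, rfl⟩⟩
          rfl
        map_add' := by
          intro u v
          apply Subtype.ext
          simp
        map_smul' := by
          intro c u
          apply Subtype.ext
          simp
        continuous_toFun := Continuous.subtype_mk (continuous_id.prodMk continuous_const) _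
        continuous_invFun := continuous_fst.comp continuous_subtype_val }⟩

theorem injects_of_embeds {X : Type u} [NormedAddCommGroup X] [NormedSpace 𝕜 X]
    (h : EmbedsInExtMBasis 𝕜 X) : InjectsIntoC0 𝕜 X := by
  obtain ⟨E, i1, i2, i3, hE, G, hG, ⟨Φ⟩⟩ := h
  exact injects_of hE (G.subtypeL.comp (Φ.symm : X →L[𝕜] G))
    (Subtype.val_injective.comp Φ.symm.injective)

end Pool.Agent.KS6_91.MB
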